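import Pool.Agent.BKW.Stmts

/-!
# Squad BKW, row PR2: the parameters of the count
-/

set_option autoImplicit false

namespace Pool.Agent.BKW.H70

open Real Pool.Agent.BKW

theorem pw {s : ℝ} (hs : 10000 ≤ s) {a b : ℕ} (h : a < b) : 10000 * s ^ a ≤ s ^ b := by
  have h1 : s ^ b = s ^ (b - a) * s ^ a := by
    rw [← pow_add]
    congr 1
    omega
  have h2 : s ≤ s ^ (b - a) := by
    have := pow_le_pow_right₀ (show (1 : ℝ) ≤ s by linarith) (show 1 ≤ b - a by omega)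
    simpa using this
  rw [h1]
  exact mul_le_mul_of_nonneg_right (hs.trans h2) (by positivity)

theorem pe {s : ℝ} (hs : 10000 ≤ s) {n : ℕ} (h : n ≤ 1000) : s ^ n ≤ exp (s ^ 2 / 4) := by
  have h1 : s ≤ exp s := by
    have := add_one_le_exp s
    linarith
  have h2 : s ^ n ≤ exp s ^ n := pow_le_pow_left₀ (by linarith) h1 n
  rw [← exp_nat_mul] at h2
  refine h2.trans (exp_le_exp.2 ?_)
  have h3 : (n : ℝ) ≤ 1000 := by exact_mod_cast h
  nlinarith

theorem expmono {A B C : ℝ} (h : A ≤ exp B) (h2 : B ≤ C) : A ≤ exp C :=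
  h.trans (exp_le_exp.2 h2)

theorem addone {A B : ℝ} (h : A ≤ exp B) (h0 : 0 ≤ B) : A + 1 ≤ exp (B + 1) := by
  rw [exp_add]
  have h1 : 1 ≤ exp B := one_le_exp h0
  have h2 : (2 : ℝ) ≤ exp 1 := by
    have := add_one_le_exp (1 : ℝ)
    linarith
  nlinarith [exp_pos B]

theorem mulexp {A B a b : ℝ} (h : A ≤ exp a) (h' : B ≤ exp b) (hB : 0 ≤ B) :
    A * B ≤ exp (a + b) := by
  rw [exp_add]
  exact mul_le_mul h h' hB (exp_pos a).le

theorem powexp {A a : ℝ} (h : A ≤ exp a) (hA : 0 ≤ A) (ha : 0 ≤ a) {n : ℕ} {N : ℝ}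
    (hn : (n : ℝ) ≤ N) : A ^ n ≤ exp (N * a) := by
  refine (pow_le_pow_left₀ hA h n).trans ?_
  rw [← exp_nat_mul]
  exact exp_le_exp.2 (mul_le_mul_of_nonneg_right hn ha)

theorem ceilexp {a : ℝ} (ha : 0 ≤ a) : ((⌈exp a⌉₊ : ℕ) : ℝ) ≤ exp (a + 1) :=
  (Nat.ceil_lt_add_one (exp_pos a).le).le.trans (addone le_rfl ha)

theorem log2_le (x : ℕ) (hx : 1 ≤ x) : ((Nat.log 2 x : ℕ) : ℝ) ≤ 2 * log x := by
  have h1 : 2 ^ Nat.log 2 x ≤ x := Nat.pow_log_le_self 2 (by omega)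
  have h2 : ((2 : ℝ) ^ Nat.log 2 x) ≤ x := by exact_mod_cast h1
  have h3 := log_le_log (by positivity) h2
  rw [log_pow] at h3
  have h4 : (1 : ℝ) / 2 ≤ log 2 := by
    have := log_two_gt_d9
    linarith
  have h5 : (0 : ℝ) ≤ (Nat.log 2 x : ℕ) := by positivity
  nlinarith

theorem pr2 : Pr2Stmt := by
  refine ⟨⌈exp ((10000 : ℝ) ^ 144)⌉₊, fun x hx => ?_⟩
  have hx1 : exp ((10000 : ℝ) ^ 144) ≤ x := (Nat.le_ceil _).trans (by exact_mod_cast hx)
  have hxpos : (0 : ℝ) < x := (exp_pos _).trans_le hx1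
  have hx0 : 1 ≤ x := by
    have : 0 < x := by exact_mod_cast hxpos
    omega
  have hlog : (10000 : ℝ) ^ 144 ≤ log x := by
    have := log_le_log (exp_pos _) hx1
    rwa [log_exp] at this
  obtain ⟨s, hs, hsl⟩ : ∃ s : ℝ, 10000 ≤ s ∧ log x = s ^ 144 := by
    have h0 : (0 : ℝ) ≤ log x := le_trans (by positivity) hlog
    refine ⟨(log x) ^ (1 / 144 : ℝ), ?_, ?_⟩
    · have h1 := rpow_le_rpow (by positivity) hlog (show (0 : ℝ) ≤ 1 / 144 by norm_num)
      have h2 : ((10000 : ℝ) ^ 144) ^ (1 / 144 : ℝ) = 10000 := by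
        rw [← rpow_natCast, ← rpow_mul (by norm_num)]
        norm_num
      rwa [h2] at h1
    · rw [← rpow_natCast, ← rpow_mul h0]
      norm_num
  have hs0 : (0 : ℝ) ≤ s := by linarith
  have hs1 : (1 : ℝ) ≤ s := by linarith
  have hexp : x * exp (-(log x) ^ (1 / 9 : ℝ)) = exp (s ^ 144 - s ^ 16) := by
    have h1 : (log (x : ℝ)) ^ (1 / 9 : ℝ) = s ^ 16 := by
      rw [hsl, ← rpow_natCast, ← rpow_mul hs0, ← rpow_natCast]
      norm_num
    rw [h1, sub_eq_add_neg, exp_add, ← hsl, exp_log hxpos]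
  have hxe : (x : ℝ) = exp (s ^ 144) := by rw [← hsl, exp_log hxpos]
  have P := @pw s hs
  have hL1 : log ((x : ℝ) + 1) ≤ 2 * s ^ 144 := by
    have h1 : log ((x : ℝ) + 1) ≤ log (2 * x) := by
      refine log_le_log (by positivity) ?_
      have : (1 : ℝ) ≤ x := by exact_mod_cast hx0
      linarith
    rw [log_mul (by norm_num) hxpos.ne', hsl] at h1
    have h2 : log 2 ≤ (1 : ℝ) := by
      have := log_two_lt_d9
      linarith
    have h3 : (1 : ℝ) ≤ s ^ 144 := one_le_pow₀ hs1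
    linarith
  have hL0 : 0 ≤ log ((x : ℝ) + 1) := log_nonneg (by linarith)
  have hn1 : ((Nat.log 2 x : ℕ) : ℝ) ≤ 2 * s ^ 144 := by
    have := log2_le x hx0
    rwa [hsl] at this
  have hn2 : ((Nat.log 2 (x + 1) : ℕ) : ℝ) ≤ 4 * s ^ 144 := by
    have := log2_le (x + 1) (by omega)
    push_cast at this
    linarith
  have E1 : s ^ 145 ≤ exp (s ^ 2 / 4) := pe hs (by norm_num)
  have E2 : s ^ 163 ≤ exp (s ^ 2 / 4) := pe hs (by norm_num)
  have q1 : (1 : ℝ) ≤ s ^ 144 := one_le_pow₀ hs1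
  have q145 := P (show 144 < 145 by norm_num)
  -- the parameters
  obtain ⟨r, hr1, hr2⟩ : ∃ r : ℕ, (r : ℝ) ≤ s ^ 18 ∧ s ^ 18 < r + 1 :=
    ⟨⌊s ^ 18⌋₊, Nat.floor_le (by positivity), Nat.lt_floor_add_one _⟩
  have hr0 : (0 : ℝ) ≤ r := Nat.cast_nonneg r
  have q18 := P (show 1 < 18 by norm_num)
  have hr3 : 1 ≤ r := by
    have : (0 : ℝ) < r := by
      rw [pow_one] at q18
      linarith
    have : 0 < r := by exact_mod_cast this
    omega
  have hrR : (1 : ℝ) ≤ r := by exact_mod_cast hr3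
  -- the bound for Yb
  have hY : 2 * Yb (3 * r) (x + 1) ≤ exp (s ^ 95) := by
    unfold Yb
    have h1 : (2 : ℝ) ^ (20 * (3 * r) ^ 3) ≤ exp (540 * s ^ 54) := by
      have h2 : (2 : ℝ) ≤ exp 1 := by
        have := add_one_le_exp (1 : ℝ)
        linarith
      have h3 : ((20 * (3 * r) ^ 3 : ℕ) : ℝ) ≤ 540 * s ^ 54 := by
        push_cast
        have h4 : (r : ℝ) ^ 3 ≤ (s ^ 18) ^ 3 := pow_le_pow_left₀ hr0 hr1 3
        rw [← pow_mul] at h4
        norm_num at h4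
        have h5 : (20 : ℝ) * (3 * (r : ℝ)) ^ 3 = 540 * (r : ℝ) ^ 3 := by ring
        rw [h5]
        linarith
      have := powexp h2 (by norm_num) (by norm_num) h3
      rwa [mul_one] at this
    have hc : (((x + 1 : ℕ) : ℕ) : ℝ) = (x : ℝ) + 1 := by push_cast; ring
    rw [hc]
    have h2 : (2 : ℝ) ^ (20 * (3 * r) ^ 3) * log ((x : ℝ) + 1) + 2 ≤ exp (s ^ 56) := by
      have h3 : log ((x : ℝ) + 1) ≤ exp (s ^ 2) := by
        refine expmono (hL1.trans (le_trans ?_ E1)) ?_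
        · linarith
        · have : (0 : ℝ) ≤ s ^ 2 := by positivity
          linarith
      have h4 := mulexp h1 h3 hL0
      have h5 : (0 : ℝ) ≤ 540 * s ^ 54 + s ^ 2 := by positivity
      have h6 := addone (addone h4 h5) (by linarith)
      have h7 := P (show 54 < 56 by norm_num)
      have h8 := P (show 2 < 56 by norm_num)
      have h9 := P (show 0 < 56 by norm_num)
      have h10 := P (show 54 < 55 by norm_num)
      rw [pow_zero] at h9
      have h11 : (0 : ℝ) ≤ s ^ 54 := by positivity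
      have h12 : (0 : ℝ) ≤ s ^ 2 := by positivity
      calc (2 : ℝ) ^ (20 * (3 * r) ^ 3) * log ((x : ℝ) + 1) + 2
          = (2 : ℝ) ^ (20 * (3 * r) ^ 3) * log ((x : ℝ) + 1) + 1 + 1 := by ring
        _ ≤ _ := h6
        _ ≤ exp (s ^ 56) := exp_le_exp.2 (by linarith)
    have h20 : ((16 * (3 * r) ^ 2 : ℕ) : ℝ) ≤ 144 * s ^ 36 := by
      push_cast
      have h4 : (r : ℝ) ^ 2 ≤ (s ^ 18) ^ 2 := pow_le_pow_left₀ hr0 hr1 2
      rw [← pow_mul] at h4
      norm_num at h4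
      have h5 : (16 : ℝ) * (3 * (r : ℝ)) ^ 2 = 144 * (r : ℝ) ^ 2 := by ring
      rw [h5]
      linarith
    have h21 := powexp h2 (by positivity) (by positivity) h20
    have h22 : 2 * (((3 * r : ℕ) : ℝ) * log ((x : ℝ) + 1)) ≤ exp (s ^ 2 / 4) := by
      refine le_trans ?_ E2
      push_cast
      have h23 : (3 * (r : ℝ)) * log ((x : ℝ) + 1) ≤ (3 * s ^ 18) * (2 * s ^ 144) :=
        mul_le_mul (by linarith) hL1 hL0 (by positivity)
      have h24 : (3 * s ^ 18) * (2 * s ^ 144) = 6 * s ^ 162 := by ring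
      have h25 := P (show 162 < 163 by norm_num)
      have h26 : (0 : ℝ) ≤ s ^ 162 := by positivity
      rw [h24] at h23
      linarith
    have h27 := mulexp h22 h21 (by positivity)
    have h28 : s ^ 2 / 4 + 144 * s ^ 36 * s ^ 56 ≤ s ^ 95 := by
      have h29 : 144 * s ^ 36 * s ^ 56 = 144 * s ^ 92 := by ring
      have h30 := P (show 92 < 95 by norm_num)
      have h31 := P (show 2 < 92 by norm_num)
      have h32 : (0 : ℝ) ≤ s ^ 2 := by positivity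
      rw [h29]
      linarith
    refine le_trans (le_of_eq ?_) (expmono h27 h28)
    push_cast
    ring
  refine ⟨r, ⌈exp (s ^ 117)⌉₊, ⌈exp (s ^ 95)⌉₊, hr3, Nat.one_le_iff_ne_zero.2
    (Nat.ceil_pos.2 (exp_pos _)).ne', Nat.one_le_iff_ne_zero.2 (Nat.ceil_pos.2 (exp_pos _)).ne',
    hY.trans (Nat.le_ceil _), ?_⟩
  have hy1 : exp (s ^ 117) ≤ ((⌈exp (s ^ 117)⌉₊ : ℕ) : ℝ) := Nat.le_ceil _
  have hy2 : ((⌈exp (s ^ 117)⌉₊ : ℕ) : ℝ) ≤ exp (s ^ 117 + 1) := ceilexp (by positivity)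
  have hE2 : ((⌈exp (s ^ 95)⌉₊ : ℕ) : ℝ) ≤ exp (s ^ 95 + 1) := ceilexp (by positivity)
  generalize ((⌈exp (s ^ 117)⌉₊ : ℕ) : ℝ) = y at hy1 hy2 ⊢
  have hE1 : exp (s ^ 95) ≤ ((⌈exp (s ^ 95)⌉₊ : ℕ) : ℝ) := Nat.le_ceil _
  generalize ((⌈exp (s ^ 95)⌉₊ : ℕ) : ℝ) = E at hE1 hE2 ⊢
  have hy0 : 0 < y := (exp_pos _).trans_le hy1
  rw [hexp]
  have hnn : (0 : ℝ) ≤ (Nat.log 2 x : ℕ) := Nat.cast_nonneg _
  -- polynomial inequalities
  have s2 : (0 : ℝ) ≤ s ^ 2 := by positivity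
  have s16 : (0 : ℝ) ≤ s ^ 16 := by positivity
  have a1 := P (show 0 < 2 by norm_num)
  have a2 := P (show 2 < 16 by norm_num)
  have a3 := P (show 16 < 18 by norm_num)
  rw [pow_zero] at a1
  have a4 := P (show 18 < 95 by norm_num)
  have a5 := P (show 95 < 96 by norm_num)
  have a6 := P (show 96 < 113 by norm_num)
  have a7 := P (show 113 < 114 by norm_num)
  have a8 := P (show 114 < 117 by norm_num)
  have a9 := P (show 117 < 135 by norm_num)
  have a10 := P (show 135 < 144 by norm_num)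
  have a11 := P (show 18 < 20 by norm_num)
  have a12 := P (show 20 < 95 by norm_num)
  -- the terms
  have hxy : (x : ℝ) / y ≤ exp (s ^ 144 - s ^ 117) := by
    rw [div_le_iff₀ hy0, hxe, exp_sub, div_mul_eq_mul_div, le_div_iff₀ (exp_pos _)]
    exact mul_le_mul_of_nonneg_left hy1 (exp_pos _).le
  have T3 : (x : ℝ) / y ≤ exp (s ^ 144 - s ^ 16 - 2) := expmono hxy (by linarith)
  have T1 : 3 * (((x : ℝ) + 1) * (1 + log ((x : ℝ) + 1)) / 2 ^ r) ≤
      exp (s ^ 144 - s ^ 16 - 2) := by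
    have h1 : 3 * (((x : ℝ) + 1) * (1 + log ((x : ℝ) + 1))) ≤ exp (s ^ 144 + s ^ 2 / 4) := by
      have h2 : ((x : ℝ) + 1) * (1 + log ((x : ℝ) + 1)) ≤ (2 * x) * (3 * s ^ 144) := by
        refine mul_le_mul ?_ ?_ (by linarith) (by positivity)
        · have : (1 : ℝ) ≤ x := by exact_mod_cast hx0
          linarith
        · linarith
      have h3 : 18 * s ^ 144 ≤ exp (s ^ 2 / 4) := by linarith
      rw [exp_add, ← hxe]
      nlinarith
    have h4 : exp ((s ^ 18 - 1) / 2) ≤ 2 ^ r := by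
      have h5 : (1 : ℝ) / 2 ≤ log 2 := by
        have := log_two_gt_d9
        linarith
      have h6 : (2 : ℝ) ^ r = exp ((r : ℝ) * log 2) := by
        rw [exp_nat_mul, exp_log (by norm_num)]
      rw [h6]
      refine exp_le_exp.2 ?_
      nlinarith
    have h7 : 3 * (((x : ℝ) + 1) * (1 + log ((x : ℝ) + 1)) / 2 ^ r) =
        3 * (((x : ℝ) + 1) * (1 + log ((x : ℝ) + 1))) / 2 ^ r := by ring
    rw [h7, div_le_iff₀ (by positivity)]
    refine h1.trans (le_trans ?_ (mul_le_mul_of_nonneg_left h4 (exp_pos _).le))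
    rw [← exp_add]
    exact exp_le_exp.2 (by linarith)
  have hn1' : ((Nat.log 2 x : ℕ) : ℝ) ≤ exp (s ^ 2 / 4) := by linarith
  have hyn : y * ((Nat.log 2 x : ℕ) : ℝ) + 1 ≤ exp (s ^ 117 + 1 + s ^ 2 / 4 + 1) :=
    addone (mulexp hy2 hn1' hnn) (by positivity)
  have T2 : (y * ((Nat.log 2 x : ℕ) : ℝ) + 1) ^ r ≤ exp (s ^ 144 - s ^ 16 - 2) := by
    refine expmono (powexp hyn (by positivity) (by positivity) hr1) ?_
    have h1 : s ^ 18 * (s ^ 117 + 1 + s ^ 2 / 4 + 1) = s ^ 135 + 2 * s ^ 18 + s ^ 20 / 4 := by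
      ring
    rw [h1]
    linarith
  have T4 : ((Nat.log 2 (x + 1) : ℕ) : ℝ) + 3 ≤ exp (s ^ 144 - s ^ 16 - 2) :=
    expmono (show ((Nat.log 2 (x + 1) : ℕ) : ℝ) + 3 ≤ exp (s ^ 2 / 4) by linarith) (by linarith)
  have hE0 : 0 ≤ E := by
    have := hE1
    exact (exp_pos _).le.trans this
  have T5 : (x : ℝ) / y * (E + 1) ^ (r + 1) * (E * (((Nat.log 2 x : ℕ) : ℝ) + 1) ^ 2 + 1) ^ r ≤
      exp (s ^ 144 - s ^ 16 - 2) := by
    have h1 : E + 1 ≤ exp (s ^ 95 + 1 + 1) := addone hE2 (by positivity)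
    have h2 : ((r + 1 : ℕ) : ℝ) ≤ s ^ 18 + 1 := by
      push_cast
      linarith
    have h3 := powexp h1 (by positivity) (by positivity) h2
    have h4 : (((Nat.log 2 x : ℕ) : ℝ) + 1) ^ 2 ≤ exp (s ^ 2 / 2) := by
      have h5 : ((Nat.log 2 x : ℕ) : ℝ) + 1 ≤ exp (s ^ 2 / 4) := by linarith
      have h6 := pow_le_pow_left₀ (by positivity) h5 2
      rw [← exp_nat_mul] at h6
      refine expmono h6 (le_of_eq ?_)
      push_cast
      ring
    have h7 : E * (((Nat.log 2 x : ℕ) : ℝ) + 1) ^ 2 + 1 ≤ exp (s ^ 95 + 1 + s ^ 2 / 2 + 1) :=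
      addone (mulexp hE2 h4 (by positivity)) (by positivity)
    have h8 := powexp h7 (by positivity) (by positivity) hr1
    have h9 := mulexp (mulexp hxy h3 (by positivity)) h8 (by positivity)
    refine expmono h9 ?_
    have h10 : s ^ 144 - s ^ 117 + (s ^ 18 + 1) * (s ^ 95 + 1 + 1) +
        s ^ 18 * (s ^ 95 + 1 + s ^ 2 / 2 + 1) =
        s ^ 144 - s ^ 117 + 2 * s ^ 113 + 4 * s ^ 18 + s ^ 95 + 2 + s ^ 20 / 2 := by ring
    rw [h10]
    linarith
  have h5 : 5 * exp (s ^ 144 - s ^ 16 - 2) ≤ exp (s ^ 144 - s ^ 16) := by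
    have h6 : (5 : ℝ) ≤ exp 2 := by
      have := quadratic_le_exp_of_nonneg (show (0 : ℝ) ≤ 2 by norm_num)
      linarith
    have h7 : exp (s ^ 144 - s ^ 16) = exp 2 * exp (s ^ 144 - s ^ 16 - 2) := by
      rw [← exp_add]
      congr 1
      ring
    rw [h7]
    exact mul_le_mul_of_nonneg_right h6 (exp_pos _).le
  linarith

end Pool.Agent.BKW.H70
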